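import Pool.Agent.P.MP_a94181_al.Grp

/-!
Upper bound for the number of automorphisms.
-/

namespace Pool.Agent.P.MP_a94181_al

variable {k n : ℕ}

/-- reduction modulo two -/
def rho (n : ℕ) : R n →+* ZMod 2 :=
  ZMod.castHom (dvd_pow_self 2 (Nat.succ_ne_zero (n + 1))) (ZMod 2)

lemma even_of_rho (r : R n) (h : rho n r = 0) : ∃ c, r = 2 * c := by
  obtain ⟨m, rfl⟩ := ZMod.natCast_zmod_surjective r
  rw [map_natCast, ZMod.natCast_eq_zero_iff] at h
  obtain ⟨c, rfl⟩ := h
  exact ⟨c, by simp⟩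

lemma unit_of_rho (r : R n) (h : rho n r ≠ 0) : IsUnit r := by
  obtain ⟨m, rfl⟩ := ZMod.natCast_zmod_surjective r
  rw [map_natCast, Ne, ZMod.natCast_eq_zero_iff] at h
  rw [ZMod.isUnit_iff_coprime]
  apply Nat.Coprime.pow_right
  exact ((Nat.Prime.coprime_iff_not_dvd Nat.prime_two).mpr h).symm

lemma half_ne_zero : ((2 ^ (n + 1) : ℕ) : R n) ≠ 0 := by
  rw [Ne, ZMod.natCast_eq_zero_iff]
  intro h
  have := Nat.le_of_dvd (by positivity) h
  have h2 : 2 ^ (n + 1) < 2 ^ (n + 2) := Nat.pow_lt_pow_right (by norm_num) (by omega)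
  omega

lemma half_mul_two : ((2 ^ (n + 1) : ℕ) : R n) * 2 = 0 := by
  have : ((2 ^ (n + 2) : ℕ) : R n) = 0 := ZMod.natCast_self _
  rw [← this]
  push_cast
  ring

/-- an automorphism invariant property -/
def Big (g : G k n) : Prop := g ^ (2 ^ (n + 1)) ∉ Subgroup.center (G k n)

lemma Big.map (α : MulAut (G k n)) {g : G k n} (hg : Big g) : Big (α g) := by
  intro h
  apply hg
  rw [Subgroup.mem_center_iff] at h ⊢
  intro a
  apply α.injective
  simpa using h (α a)

lemma big_of (hk : 2 ≤ k) (g : G k n) (hs : g.s = 1) (p : I k) (hp : g.v p = 1) : Big g := by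
  intro h
  have := v_eq_zero_of_center hk _ h p
  rw [pow_v g hs, hp, mul_one] at this
  exact half_ne_zero this

lemma Big.s_eq {g : G k n} (hg : Big g) : g.s = 1 := by
  rcases Int.units_eq_one_or g.s with h | h
  · exact h
  · exfalso
    apply hg
    rw [pow_succ', pow_mul]
    apply Subgroup.pow_mem
    rw [pow_two]
    apply mem_center
    · simp [h]
    · intro p
      simp [h]

lemma Big.exists_odd {g : G k n} (hg : Big g) : ∃ p, rho n (g.v p) ≠ 0 := by
  by_contra hcon
  push Not at hcon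
  apply hg
  apply mem_center _ (pow_s g hg.s_eq _)
  intro p
  obtain ⟨c, hc⟩ := even_of_rho _ (hcon p)
  rw [pow_v g hg.s_eq, hc, ← mul_assoc, half_mul_two, zero_mul]

lemma exists_minor (a b : I k → R n) (ha : ∃ p, rho n (a p) ≠ 0) (hb : ∃ p, rho n (b p) ≠ 0)
    (hab : ∃ p, rho n (a p + b p) ≠ 0) : ∃ p q, rho n (a p * b q - a q * b p) ≠ 0 := by
  by_contra hcon
  push Not at hcon
  obtain ⟨p, hp⟩ := ha
  obtain ⟨q, hq⟩ := hb
  obtain ⟨r, hr⟩ := hab
  have h1 := hcon p q
  have h2 := hcon p r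
  simp only [map_sub, map_mul, map_add] at h1 h2 hr
  revert hp hq hr h1 h2
  generalize rho n (a p) = a1
  generalize rho n (a q) = a2
  generalize rho n (a r) = a3
  generalize rho n (b p) = b1
  generalize rho n (b q) = b2
  generalize rho n (b r) = b3
  intro hp hq h1 h2 hr
  have key : ∀ y : ZMod 2, y = 0 ∨ y = 1 := by decide
  rcases key a1 with rfl | rfl
  · exact hp rfl
  rcases key b2 with rfl | rfl
  · exact hq rfl
  revert a2 a3 b1 b3
  decide

lemma support_block (a b : I k → R n)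
    (hc : ∀ p q : I k, p.1 ≠ q.1 → a p * b q = a q * b p)
    (hm : ∃ p q, rho n (a p * b q - a q * b p) ≠ 0) :
    ∃ j : Fin k, ∀ s : I k, s.1 ≠ j → a s = 0 := by
  obtain ⟨p, q, h⟩ := hm
  have hpq : p.1 = q.1 := by
    by_contra hne
    rw [hc p q hne, sub_self, map_zero] at h
    exact h rfl
  refine ⟨p.1, fun s hs => ?_⟩
  have h1 := hc s p hs
  have h2 := hc s q (hpq ▸ hs)
  have h3 : a s * (a p * b q - a q * b p) = 0 := by
    linear_combination (a p) * h2 - (a q) * h1
  exact (unit_of_rho _ h).mul_left_eq_zero.mp h3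

lemma x_comm (i : Fin k) (b c : Bool) :
    (x (i, b) * x (i, c) : G k n) = x (i, c) * x (i, b) := by
  have key : ∀ (b c : Bool) (j : J k), (Pi.single (i, b) (1 : R n) : I k → R n) j.1.1 *
      (Pi.single (i, c) (1 : R n) : I k → R n) j.1.2 = 0 := by
    intro b c j
    obtain ⟨⟨p, q⟩, h⟩ := j
    by_cases hp : p = (i, b)
    · have hq : q ≠ (i, c) := by
        rintro rfl
        subst hp
        exact lt_irrefl _ h
      simp [Pi.single_eq_of_ne hq]
    · simp [Pi.single_eq_of_ne hp]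
  ext y
  · simp [x, xr, add_comm]
  · simp [x, xr, key]
  · simp [x, xr]

lemma big_x (hk : 2 ≤ k) (p : I k) : Big (x p : G k n) :=
  big_of hk _ rfl p (by simp [x, xr])

lemma aut_block (hk : 2 ≤ k) (α : MulAut (G k n)) (p : I k) :
    ∃ j : Fin k, ∀ s : I k, s.1 ≠ j → (α (x p)).v s = 0 := by
  obtain ⟨i, b⟩ := p
  have ha := (big_x (n := n) hk (i, b)).map α
  have hb := (big_x (n := n) hk (i, !b)).map α
  have hab : Big (α (x (i, b) * x (i, !b))) := by
    apply Big.map
    apply big_of hk _ (by simp [x, xr]) (i, b)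
    simp [x, xr]
  apply support_block _ (α (x (i, !b))).v
  · have hcomm : α (x (i, b)) * α (x (i, !b)) = α (x (i, !b)) * α (x (i, b)) := by
      rw [← map_mul, ← map_mul, x_comm]
    have key : ∀ p q : I k, p.1 < q.1 → (α (x (i, b))).v p * (α (x (i, !b))).v q =
        (α (x (i, b))).v q * (α (x (i, !b))).v p := by
      intro p q h
      have := congrArg (fun a : G k n => a.z ⟨(p, q), h⟩) hcomm
      simp only [mul_z, ha.s_eq, hb.s_eq, sg_one] at this
      linear_combination this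
    intro p q hne
    rcases lt_or_gt_of_ne hne with h | h
    · exact key p q h
    · exact (key q p h).symm
  · apply exists_minor _ _ ha.exists_odd hb.exists_odd
    obtain ⟨p, hp⟩ := hab.exists_odd
    refine ⟨p, ?_⟩
    simpa [ha.s_eq] using hp

/-- the top binary digit -/
def bit (r : R n) : Bool := decide (r.val < 2 ^ (n + 1))

lemma eq_of_bit (r r' : R n) (h2 : 2 * r = 2 * r') (hb : bit r = bit r') : r = r' := by
  have h1 : ((2 * r.val : ℕ) : R n) = ((2 * r'.val : ℕ) : R n) := by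
    push_cast
    simpa using h2
  rw [ZMod.natCast_eq_natCast_iff] at h1
  have h3 : r.val ≡ r'.val [MOD 2 ^ (n + 1)] := by
    apply Nat.ModEq.mul_left_cancel' (c := 2) (by norm_num)
    rw [← pow_succ']
    exact h1
  have l1 := r.val_lt
  have l2 := r'.val_lt
  have e : 2 ^ (n + 2) = 2 * 2 ^ (n + 1) := pow_succ' 2 (n + 1)
  apply ZMod.val_injective
  unfold bit at hb
  rw [decide_eq_decide] at hb
  generalize r.val = u at *
  generalize r'.val = w at *
  rw [e] at l1 l2
  generalize 2 ^ (n + 1) = M at *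
  by_cases hu : u < M
  · exact Nat.ModEq.eq_of_lt_of_lt h3 hu (hb.mp hu)
  · have hw : ¬ w < M := fun h => hu (hb.mpr h)
    obtain ⟨u', rfl⟩ : ∃ u', u = M + u' := ⟨u - M, by omega⟩
    obtain ⟨w', rfl⟩ : ∃ w', w = M + w' := ⟨w - M, by omega⟩
    have := Nat.ModEq.eq_of_lt_of_lt (Nat.ModEq.add_left_cancel' M h3) (by omega) (by omega)
    omega

lemma invol_ext (g h : G k n) (hg : g * g = 1) (hh : h * h = 1) (hv : g.v = h.v)
    (hs : g.s = h.s) (hb : ∀ j, bit (g.z j) = bit (h.z j)) : g = h := by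
  ext j
  · rw [hv]
  · apply eq_of_bit _ _ _ (hb j)
    have e1 := congrArg (fun a : G k n => a.z j) hg
    have e2 := congrArg (fun a : G k n => a.z j) hh
    simp only [mul_z, one_z] at e1 e2
    rw [hv, hs] at e1
    linear_combination e1 - e2
  · rw [hs]

/-- the finite type into which the automorphism group is injected -/
abbrev T (k n : ℕ) : Type :=
  ((I k → R n) × ℤˣ × (J k → Bool)) × (I k → Fin k × R n × R n × (J k → Bool))

/-- the code of an automorphism -/
noncomputable def code (hk : 2 ≤ k) (α : MulAut (G k n)) : T k n :=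
  (((α t).v, (α t).s, fun j => bit ((α t).z j)),
    fun p => ((aut_block hk α p).choose, (α (x p)).v ((aut_block hk α p).choose, false),
      (α (x p)).v ((aut_block hk α p).choose, true), fun j => bit ((α (x p * t)).z j)))

lemma code_injective (hk : 2 ≤ k) : Function.Injective (code (n := n) hk) := by
  intro α β h
  simp only [code, Prod.mk.injEq] at h
  obtain ⟨⟨h1, h2, h3⟩, h4⟩ := h
  have ht : α t = β t := by
    apply invol_ext _ _ _ _ h1 h2 (fun j => congrFun h3 j)
    · rw [← map_mul, t_sq, map_one]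
    · rw [← map_mul, t_sq, map_one]
  apply aut_ext _ _ ht
  intro p
  have h5 := congrFun h4 p
  simp only [Prod.mk.injEq] at h5
  obtain ⟨e1, e2, e3, e4⟩ := h5
  have sa := (aut_block hk α p).choose_spec
  have sb := (aut_block hk β p).choose_spec
  rw [← e1] at sb e2 e3
  have hv : (α (x p)).v = (β (x p)).v := by
    funext s
    obtain ⟨i, b⟩ := s
    by_cases hi : i = (aut_block hk α p).choose
    · subst hi
      cases b
      · exact e2
      · exact e3
    · rw [sa (i, b) hi, sb (i, b) hi]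
  have hsa := ((big_x (n := n) hk p).map α).s_eq
  have hsb := ((big_x (n := n) hk p).map β).s_eq
  have hxt : α (x p * t) = β (x p * t) := by
    apply invol_ext _ _ _ _ _ _ (fun j => congrFun e4 j)
    · rw [← map_mul, xt_sq, map_one]
    · rw [← map_mul, xt_sq, map_one]
    · funext s
      simp [hv, hsa, hsb, ht]
    · simp [hsa, hsb, ht]
  rw [map_mul, map_mul, ht] at hxt
  exact mul_right_cancel hxt

lemma card_T : Nat.card (T k n) = (2 ^ (n + 2)) ^ (2 * k) * 2 * 2 ^ Nat.card (J k) *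
    (k * 2 ^ (n + 2) * 2 ^ (n + 2) * 2 ^ Nat.card (J k)) ^ (2 * k) := by
  simp only [Nat.card_prod, Nat.card_fun, Nat.card_zmod]
  simp only [Nat.card_eq_fintype_card, Fintype.card_fin, Fintype.card_bool,
    Fintype.card_units_int]
  rw [mul_comm k 2]
  ring

lemma card_aut_le (hk : 2 ≤ k) : Nat.card (MulAut (G k n)) ≤
    2 ^ ((n + 2) * (2 * k) + 1 + Nat.card (J k) + (k + 2 * (n + 2) + Nat.card (J k)) * (2 * k)) := by
  refine (Nat.card_le_card_of_injective _ (code_injective hk)).trans ?_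
  rw [card_T]
  have hk2 : k ≤ 2 ^ k := Nat.lt_two_pow_self.le
  calc (2 ^ (n + 2)) ^ (2 * k) * 2 * 2 ^ Nat.card (J k) *
      (k * 2 ^ (n + 2) * 2 ^ (n + 2) * 2 ^ Nat.card (J k)) ^ (2 * k)
      ≤ (2 ^ (n + 2)) ^ (2 * k) * 2 * 2 ^ Nat.card (J k) *
        (2 ^ k * 2 ^ (n + 2) * 2 ^ (n + 2) * 2 ^ Nat.card (J k)) ^ (2 * k) := by gcongr
    _ = _ := by
      rw [← pow_add, ← pow_add, ← pow_add, ← pow_mul, ← pow_mul, ← pow_succ, ← pow_add, ← pow_add]
      congr 1
      ring

lemma card_J_le : Nat.card (J k) ≤ 4 * k ^ 2 := by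
  refine (Nat.card_le_card_of_injective _ (Subtype.val_injective)).trans ?_
  simp only [Nat.card_eq_fintype_card, Fintype.card_prod, Fintype.card_fin, Fintype.card_bool]
  apply le_of_eq
  ring

lemma le_card_J (m : ℕ) : m ^ 2 ≤ Nat.card (J (2 * m)) := by
  let f : Fin m × Fin m → J (2 * m) := fun ij =>
    ⟨((⟨ij.1, by have := ij.1.2; omega⟩, false), (⟨m + ij.2, by have := ij.2.2; omega⟩, false)),
      by have := ij.1.2; simp only [Fin.mk_lt_mk]; omega⟩
  have hf : Function.Injective f := by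
    rintro ⟨a, b⟩ ⟨c, d⟩ h
    simp only [f, Subtype.mk.injEq, Prod.mk.injEq, Fin.mk.injEq, and_true] at h
    ext
    · exact h.1
    · simp only; omega
  have := Nat.card_le_card_of_injective _ hf
  simpa [pow_two] using this

theorem main (a : ℝ) (ha : 0 < a) : ∃ k n : ℕ, IsPGroup 2 (G k n) ∧
    (Nat.card (MulAut (G k n)) : ℝ) < (Nat.totient (Nat.card (G k n)) : ℝ) ^ a := by
  obtain ⟨m, hm⟩ := exists_nat_gt (max 1 (200 / a))
  have hm1 : (1 : ℝ) < m := lt_of_le_of_lt (le_max_left _ _) hm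
  have hm2 : 200 / a < m := lt_of_le_of_lt (le_max_right _ _) hm
  have hm3 : 1 < m := by exact_mod_cast hm1
  rw [div_lt_iff₀ ha] at hm2
  refine ⟨2 * m, m ^ 2, IsPGroup.of_card card_G, ?_⟩
  rw [card_G, Nat.totient_prime_pow_succ Nat.prime_two]
  have h1 := card_aut_le (n := m ^ 2) (k := 2 * m) (by omega)
  have h2 := card_J_le (k := 2 * m)
  have h3 := le_card_J m
  generalize Nat.card (J (2 * m)) = r at *
  have h4 : (m ^ 2 + 2) * (2 * (2 * m)) + 1 + r +
      (2 * m + 2 * (m ^ 2 + 2) + r) * (2 * (2 * m)) ≤ 200 * m ^ 3 := by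
    have e1 : m ≤ m ^ 2 := by nlinarith
    have e2 : m ^ 2 ≤ m ^ 3 := by nlinarith
    have e3 : r * m ≤ 16 * m ^ 3 := by nlinarith
    nlinarith
  have h5 : m ^ 4 ≤ (m ^ 2 + 2) * (2 * (2 * m) + r) := by nlinarith
  have h6 : Nat.card (MulAut (G (2 * m) (m ^ 2))) ≤ 2 ^ (200 * m ^ 3) :=
    h1.trans (Nat.pow_le_pow_right (by norm_num) h4)
  generalize (m ^ 2 + 2) * (2 * (2 * m) + r) = N at *
  have h7 : (m : ℝ) ^ 4 ≤ N := by exact_mod_cast h5
  calc (Nat.card (MulAut (G (2 * m) (m ^ 2))) : ℝ) ≤ (2 : ℝ) ^ (200 * m ^ 3) := by exact_mod_cast h6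
    _ = (2 : ℝ) ^ ((200 * m ^ 3 : ℕ) : ℝ) := (Real.rpow_natCast _ _).symm
    _ < (2 : ℝ) ^ ((N : ℝ) * a) := by
      apply Real.rpow_lt_rpow_of_exponent_lt (by norm_num)
      push_cast
      have : (0 : ℝ) < (m : ℝ) ^ 3 := by positivity
      calc (200 : ℝ) * m ^ 3 < m * a * m ^ 3 := by gcongr
        _ = m ^ 4 * a := by ring
        _ ≤ N * a := by gcongr
    _ = _ := by
      rw [Real.rpow_mul (by norm_num), Real.rpow_natCast]
      norm_num

end Pool.Agent.P.MP_a94181_al
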