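import Mathlib

/-!
A family of finite 2-groups with few automorphisms: the group and its basic properties.
-/

namespace Pool.Agent.P.MP_a94181_al

/-- coefficient ring -/
abbrev R (n : ℕ) : Type := ZMod (2 ^ (n + 2))

/-- index set of the generators: `k` blocks of two -/
abbrev I (k : ℕ) : Type := Fin k × Bool

/-- index set of the centre: pairs of generators in increasing blocks -/
abbrev J (k : ℕ) : Type := {pq : I k × I k // pq.1.1 < pq.2.1}

/-- the underlying set of the group -/
@[ext] structure G (k n : ℕ) : Type where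
  v : I k → R n
  z : J k → R n
  s : ℤˣ

/-- sign as a ring element -/
def sg (n : ℕ) (s : ℤˣ) : R n := ((s : ℤ) : R n)

variable {k n : ℕ}

@[simp] lemma sg_one : sg n 1 = 1 := by simp [sg]
@[simp] lemma sg_neg_one : sg n (-1) = -1 := by simp [sg]
@[simp] lemma sg_mul (s t : ℤˣ) : sg n (s * t) = sg n s * sg n t := by simp [sg]
lemma sg_sq (s : ℤˣ) : sg n s * sg n s = 1 := by
  rcases Int.units_eq_one_or s with h | h <;> simp [h]

instance : Mul (G k n) where
  mul a b := ⟨fun p => a.v p + sg n a.s * b.v p,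
    fun j => a.z j + b.z j + sg n a.s * (a.v j.1.1 * b.v j.1.2), a.s * b.s⟩

instance : One (G k n) where
  one := ⟨0, 0, 1⟩

instance : Inv (G k n) where
  inv a := ⟨fun p => -(sg n a.s * a.v p), fun j => - a.z j + a.v j.1.1 * a.v j.1.2, a.s⟩

@[simp] lemma mul_v (a b : G k n) (p : I k) : (a * b).v p = a.v p + sg n a.s * b.v p := rfl
@[simp] lemma mul_z (a b : G k n) (j : J k) :
    (a * b).z j = a.z j + b.z j + sg n a.s * (a.v j.1.1 * b.v j.1.2) := rfl
@[simp] lemma mul_s (a b : G k n) : (a * b).s = a.s * b.s := rfl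
@[simp] lemma one_v (p : I k) : (1 : G k n).v p = 0 := rfl
@[simp] lemma one_z (j : J k) : (1 : G k n).z j = 0 := rfl
@[simp] lemma one_s : (1 : G k n).s = 1 := rfl
@[simp] lemma inv_v (a : G k n) (p : I k) : (a⁻¹).v p = -(sg n a.s * a.v p) := rfl
@[simp] lemma inv_z (a : G k n) (j : J k) :
    (a⁻¹).z j = - a.z j + a.v j.1.1 * a.v j.1.2 := rfl
@[simp] lemma inv_s (a : G k n) : (a⁻¹).s = a.s := rfl

instance : Group (G k n) :=
  Group.ofLeftAxioms
    (fun a b c => by
      ext x
      · simp only [mul_v, mul_s, sg_mul]; ring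
      · simp only [mul_z, mul_v, mul_s, sg_mul]
        linear_combination (sg n b.s * b.v x.1.1 * c.v x.1.2) * sg_sq (n := n) a.s
      · simp only [mul_s, mul_assoc])
    (fun a => by ext x <;> simp)
    (fun a => by
      ext x
      · simp
      · simp only [mul_z, inv_z, inv_v, inv_s, one_z]
        linear_combination (-(a.v x.1.1 * a.v x.1.2)) * sg_sq (n := n) a.s
      · simp [Int.units_mul_self])

/-- the group as a product of sets -/
def equivProd : G k n ≃ (I k → R n) × (J k → R n) × ℤˣ where
  toFun a := (a.v, a.z, a.s)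
  invFun x := ⟨x.1, x.2.1, x.2.2⟩
  left_inv _ := rfl
  right_inv _ := rfl

instance : Finite (G k n) := Finite.of_equiv _ (equivProd (k := k) (n := n)).symm

lemma card_G : Nat.card (G k n) = 2 ^ ((n + 2) * (2 * k + Nat.card (J k)) + 1) := by
  rw [Nat.card_congr equivProd]
  simp only [Nat.card_prod, Nat.card_fun, Nat.card_zmod]
  simp only [Nat.card_eq_fintype_card, Fintype.card_fin, Fintype.card_bool,
    Fintype.card_units_int]
  rw [← pow_mul, ← pow_mul]
  ring

/-- the generator of order two acting by inversion -/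
def t : G k n := ⟨0, 0, -1⟩

/-- the elements with one nonzero coordinate -/
def xr (p : I k) (r : R n) : G k n := ⟨Pi.single p r, 0, 1⟩

/-- the generators of the class two subgroup -/
def x (p : I k) : G k n := xr p 1

/-- central elements -/
def cz (z : J k → R n) : G k n := ⟨0, z, 1⟩

lemma single_mul_single (p : I k) (r r' : R n) (j : J k) :
    (Pi.single p r : I k → R n) j.1.1 * (Pi.single p r' : I k → R n) j.1.2 = 0 := by
  obtain ⟨⟨a, b⟩, h⟩ := j
  by_cases ha : a = p
  · have hb : b ≠ p := by
      rintro rfl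
      subst ha
      exact lt_irrefl _ h
    simp [Pi.single_eq_of_ne hb]
  · simp [Pi.single_eq_of_ne ha]

lemma xr_mul (p : I k) (r r' : R n) : xr p r * xr p r' = xr p (r + r') := by
  ext y
  · simp [xr, Pi.single_add]
  · simp [xr, single_mul_single]
  · simp [xr]

lemma x_pow (p : I k) (m : ℕ) : (x p : G k n) ^ m = xr p (m : R n) := by
  induction m with
  | zero => ext y <;> simp [xr]
  | succ m ih => rw [pow_succ, ih, x, xr_mul]; simp

lemma cz_mul (z z' : J k → R n) : cz z * cz z' = cz (z + z') := by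
  ext y <;> simp [cz]

lemma comm_eq (j : J k) (r : R n) :
    xr j.1.1 r * x j.1.2 = cz (Pi.single j r) * (x j.1.2 * xr j.1.1 r) := by
  obtain ⟨⟨p, q⟩, h⟩ := j
  ext y
  · simp [xr, x, cz, add_comm]
  · obtain ⟨⟨a, b⟩, h'⟩ := y
    simp only [xr, x, cz, mul_z, sg_one, Pi.zero_apply, zero_add, one_mul, zero_mul, add_zero]
    have h1 : (Pi.single q (1 : R n) : I k → R n) a * (Pi.single p r : I k → R n) b = 0 := by
      by_cases ha : a = q
      · have hb : b ≠ p := by
          rintro rfl
          subst ha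
          exact lt_asymm h h'
        simp [Pi.single_eq_of_ne hb]
      · simp [Pi.single_eq_of_ne ha]
    rw [h1, add_zero]
    by_cases ha : a = p
    · by_cases hb : b = q
      · subst ha hb
        simp
      · rw [Pi.single_eq_of_ne hb, mul_zero, Pi.single_eq_of_ne]
        intro hh
        exact hb (congrArg (fun j : J k => j.1.2) hh)
    · rw [Pi.single_eq_of_ne ha, zero_mul, Pi.single_eq_of_ne]
      intro hh
      exact ha (congrArg (fun j : J k => j.1.1) hh)
  · simp [xr, x, cz]

lemma generated (H : Subgroup (G k n)) (ht : t ∈ H) (hx : ∀ p, x p ∈ H) (g : G k n) : g ∈ H := by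
  have h1 : ∀ p r, xr p r ∈ H := by
    intro p r
    obtain ⟨m, rfl⟩ := ZMod.natCast_zmod_surjective r
    rw [← x_pow]
    exact H.pow_mem (hx p) m
  have h2 : ∀ z, cz z ∈ H := by
    intro z
    induction z using Pi.single_induction with
    | zero => exact H.one_mem
    | add f g hf hg => rw [← cz_mul]; exact H.mul_mem hf hg
    | single j r =>
      have := comm_eq j r
      rw [← mul_inv_eq_iff_eq_mul] at this
      rw [← this]
      exact H.mul_mem (H.mul_mem (h1 _ _) (hx _)) (H.inv_mem (H.mul_mem (hx _) (h1 _ _)))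
  have h3 : ∀ v, ∃ z, (⟨v, z, 1⟩ : G k n) ∈ H := by
    intro v
    induction v using Pi.single_induction with
    | zero => exact ⟨0, H.one_mem⟩
    | add f g hf hg =>
      obtain ⟨z, hz⟩ := hf
      obtain ⟨z', hz'⟩ := hg
      refine ⟨((⟨f, z, 1⟩ : G k n) * ⟨g, z', 1⟩).z, ?_⟩
      convert H.mul_mem hz hz' using 1
      ext y <;> simp
    | single p r => exact ⟨0, h1 p r⟩
  have h4 : ∀ v z, (⟨v, z, 1⟩ : G k n) ∈ H := by
    intro v z
    obtain ⟨z', hz'⟩ := h3 v
    convert H.mul_mem (h2 (z - z')) hz' using 1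
    ext y <;> simp [cz]
  obtain ⟨v, z, s⟩ := g
  rcases Int.units_eq_one_or s with h | h
  · subst h; exact h4 v z
  · subst h
    convert H.mul_mem (h4 v z) ht using 1
    ext y <;> simp [t]

lemma aut_ext (α β : MulAut (G k n)) (ht : α t = β t) (hx : ∀ p, α (x p) = β (x p)) : α = β := by
  ext1 g
  exact generated (MonoidHom.eqLocus (α : G k n →* G k n) (β : G k n →* G k n)) ht hx g

lemma t_sq : (t : G k n) * t = 1 := by
  ext y <;> simp [t]

lemma xt_sq (p : I k) : (x p * t : G k n) * (x p * t) = 1 := by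
  ext y
  · simp [x, xr, t]
  · simp [x, xr, t, single_mul_single]
  · simp [x, xr, t]

lemma pow_s (g : G k n) (hs : g.s = 1) (m : ℕ) : (g ^ m).s = 1 := by
  induction m with
  | zero => simp
  | succ m ih => rw [pow_succ, mul_s, ih, hs, mul_one]

lemma pow_v (g : G k n) (hs : g.s = 1) (m : ℕ) (p : I k) : (g ^ m).v p = (m : R n) * g.v p := by
  induction m with
  | zero => simp
  | succ m ih => rw [pow_succ, mul_v, ih, pow_s g hs]; simp; ring

lemma mem_center (g : G k n) (hs : g.s = 1) (hv : ∀ p, g.v p = 0) :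
    g ∈ Subgroup.center (G k n) := by
  rw [Subgroup.mem_center_iff]
  intro a
  ext y
  · simp [hs, hv]
  · simp [hs, hv, add_comm]
  · simp [hs]

lemma v_eq_zero_of_center (hk : 2 ≤ k) (g : G k n) (hg : g ∈ Subgroup.center (G k n))
    (p : I k) : g.v p = 0 := by
  rw [Subgroup.mem_center_iff] at hg
  obtain ⟨i, hi⟩ : ∃ i : Fin k, i ≠ p.1 := by
    have : Nontrivial (Fin k) := Fin.nontrivial_iff_two_le.mpr hk
    exact exists_ne p.1
  have hne : p ≠ (i, false) := by
    rintro rfl
    exact hi rfl
  rcases lt_or_gt_of_ne hi with h | h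
  · have := congrArg (fun a : G k n => a.z ⟨((i, false), p), h⟩) (hg (x (i, false)))
    simpa [x, xr, Pi.single_eq_of_ne hne] using this
  · have := congrArg (fun a : G k n => a.z ⟨(p, (i, false)), h⟩) (hg (x (i, false)))
    simp only [x, xr, mul_z, Pi.single_eq_of_ne hne, Pi.single_eq_same] at this
    have h2 : sg n g.s * g.v p = 0 := by
      simpa using this.symm
    have h3 := congrArg (fun y => sg n g.s * y) h2
    simpa [← mul_assoc, sg_sq] using h3

end Pool.Agent.P.MP_a94181_al
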